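import Pool.Agent.Helper70.BRT.Spec

/-! # Module ONE: the one-step lemma -/

namespace Pool.Agent.Helper70.BRT

universe u

namespace ONE

variable {M : Type u} [PModel M] {bd : M → M} {A : ℕ → Set M} {f : M × M → Prop}
  {Φ : (M × M) × M → Prop}
variable {Γ : Type u} [Ctx M Γ]

theorem pair_lt {y q v N : M} (h1 : y < v) (h2 : q < N) : pair y q < pair v N := by
  rcases lt_or_eq_of_le (pair_mono h1.le h2.le) with h | h
  · exact h
  · exact absurd (pair_inj h).1 h1.ne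

theorem div_aux {a a' N j j' : M} (hj : j < N) (h : a * N + j = a' * N + j') : ¬ a < a' := by
  intro h1
  have h2 : a + 1 ≤ a' := add_one_le_of_lt h1
  have h3 : a * N + N ≤ a' * N := by
    calc a * N + N = (a + 1) * N := by ring
      _ ≤ a' * N := by gcongr
  have h4 : a * N + j < a * N + N := by gcongr
  have h5 : a * N + j < a' * N + j' := h4.trans_le (h3.trans le_self_add)
  exact absurd h h5.ne

theorem rec_el (hC : CodAPI M bd) {x c : Γ → M} (hx : Rec A x) (hc : Rec A c) :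
    RecP A (fun g => el (x g) (c g)) :=
  (hC.el_rec.of_pure A).comp (hx.prodMk hc)

theorem cov_union (hC : CodAPI M bd) (hA : Nice A) (hD : DefnAPI M bd f Φ A) {S m v N B : M}
    (hmv : m ≤ v) (hN : 0 < N) (hB : 0 < B) {P : M → M → Prop}
    (hP : RecP A (fun z : M × M => P z.1 z.2)) (h : ∀ r, r < B → Cov bd f Φ S m v N (P r)) :
    Cov bd f Φ S m v (B * N) (fun y => ∃ r, r < B ∧ P r y) := by
  have hb := hA.base
  let Mat : M → M → Prop := fun r C =>
    (∀ y, y < v → m ≤ y → P r y → ∃ k, k < N ∧ el (pair y k) C) ∧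
      ∀ k, k < N → Att bd f Φ S m v (fun y => P r y ∧ el (pair y k) C)
  have hMat : RecP A (fun z : M × M => Mat z.1 z.2) := by
    refine RecP.and ?_ ?_
    · refine RecP.ball hb.coll (Rec.const v)
        (R := fun (z : M × M) y => m ≤ y → P z.1 y → ∃ k, k < N ∧ el (pair y k) z.2) ?_
      refine (RecP.le (Rec.const m) PMap.id.snd.rec).imp
        ((hP.comp (Rec.prodMk PMap.id.fst.fst.rec PMap.id.snd.rec)).imp ?_)
      refine RecP.bex hb.coll (Rec.const N)
        (R := fun (g : (M × M) × M) k => el (pair g.2 k) g.1.2) ?_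
      exact rec_el hC (Rec.pair PMap.id.fst.snd.rec PMap.id.snd.rec) PMap.id.fst.fst.snd.rec
    · refine RecP.ball hb.coll (Rec.const N)
        (R := fun (z : M × M) k => Att bd f Φ S m v (fun y => P z.1 y ∧ el (pair y k) z.2)) ?_
      refine hD.att_rec _ (fun _ => S) (fun _ => m) (fun _ => v)
        (fun (g : (M × M) × M) y => P g.1.1 y ∧ el (pair y g.2) g.1.2) (Rec.const S)
        (Rec.const m) (Rec.const v) ?_
      exact (hP.comp (Rec.prodMk PMap.id.fst.fst.fst.rec PMap.id.snd.rec)).and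
        (rec_el hC (Rec.pair PMap.id.snd.rec PMap.id.fst.snd.rec) PMap.id.fst.fst.snd.rec)
  obtain ⟨CC, hCC, hCC1⟩ : ∃ CC : M → M, Rec A CC ∧ ∀ r, r < B → Mat r (CC r) := by
    have hR : RecP A (fun z : M × M => B ≤ z.1 ∨ Mat z.1 z.2) :=
      (RecP.le (Rec.const B) PMap.id.fst.rec).or hMat
    have htot : ∀ r : M, ∃ C, B ≤ r ∨ Mat r C := by
      intro r
      by_cases hr : r < B
      · obtain ⟨C, -, h1, h2⟩ := h r hr
        exact ⟨C, Or.inr ⟨h1, h2⟩⟩
      · exact ⟨0, Or.inl (not_lt.mp hr)⟩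
    refine ⟨fun r => mu (fun C => B ≤ r ∨ Mat r C),
      Rec.mu hb (R := fun r C => B ≤ r ∨ Mat r C) hR htot, fun r hr => ?_⟩
    have hR1 : RecP A (fun C => B ≤ r ∨ Mat r C) :=
      hR.comp (F := fun C => (r, C)) ((Rec.const r).prodMk Rec.id)
    rcases (mu_spec hb hR1 (htot r)).1 with h1 | h1
    · exact absurd hr (not_lt.mpr h1)
    · exact h1
  let Q : M → Prop := fun z => ∃ y, y < z + 1 ∧ ∃ r, r < B ∧ ∃ k, k < N ∧ z = pair y (r * N + k) ∧
    P r y ∧ el (pair y k) (CC r)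
  have hQ : RecP A Q := by
    refine RecP.bex hb.coll (Rec.add Rec.id (Rec.const 1)) (R := fun (z : M) y => ∃ r, r < B ∧
      ∃ k, k < N ∧ z = pair y (r * N + k) ∧ P r y ∧ el (pair y k) (CC r)) ?_
    refine RecP.bex hb.coll (Rec.const B) (R := fun (g : M × M) r => 
      ∃ k, k < N ∧ g.1 = pair g.2 (r * N + k) ∧ P r g.2 ∧ el (pair g.2 k) (CC r)) ?_
    refine RecP.bex hb.coll (Rec.const N) (R := fun (g : (M × M) × M) k => 
      g.1.1 = pair g.1.2 (g.2 * N + k) ∧ P g.2 g.1.2 ∧ el (pair g.1.2 k) (CC g.2)) ?_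
    refine RecP.and ?_ (RecP.and ?_ ?_)
    · exact RecP.eq PMap.id.fst.fst.fst.rec (Rec.pair PMap.id.fst.fst.snd.rec
        (Rec.add (Rec.mul PMap.id.fst.snd.rec (Rec.const N)) PMap.id.snd.rec))
    · exact hP.comp (Rec.prodMk PMap.id.fst.snd.rec PMap.id.fst.fst.snd.rec)
    · exact rec_el hC (Rec.pair PMap.id.fst.fst.snd.rec PMap.id.snd.rec)
        (hCC.comp PMap.id.fst.snd.rec)
  have hel : ∀ y q, el (pair y q) (mk (pair v (B * N)) Q) ↔ pair y q < pair v (B * N) ∧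
      ∃ r, r < B ∧ ∃ k, k < N ∧ q = r * N + k ∧ P r y ∧ el (pair y k) (CC r) := by
    intro y q
    rw [hC.mk_spec A hb Q hQ]
    refine and_congr_right fun _ => ?_
    constructor
    · rintro ⟨y', -, r, hr, k, hk, h1, h2, h3⟩
      obtain ⟨rfl, h4⟩ := pair_inj h1
      exact ⟨r, hr, k, hk, h4, h2, h3⟩
    · rintro ⟨r, hr, k, hk, rfl, h2, h3⟩
      exact ⟨y, lt_add_one_iff'.mpr (le_pair_left _ _), r, hr, k, hk, rfl, h2, h3⟩
  refine ⟨mk (pair v (B * N)) Q, hC.mk_lt A hb Q hQ _, ?_, ?_⟩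
  · rintro y hy hmy ⟨r, hr, hPr⟩
    obtain ⟨k, hk, hk2⟩ := (hCC1 r hr).1 y hy hmy hPr
    have hq : r * N + k < B * N := by
      calc r * N + k < r * N + N := by gcongr
        _ = (r + 1) * N := by ring
        _ ≤ B * N := by
          gcongr
          exact add_one_le_of_lt hr
    exact ⟨r * N + k, hq, (hel _ _).mpr ⟨pair_lt hy hq, r, hr, k, hk, rfl, hPr, hk2⟩⟩
  · intro q _
    by_cases hq : ∃ r, r < B ∧ ∃ k, k < N ∧ q = r * N + k
    · obtain ⟨r, hr, k, hk, rfl⟩ := hq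
      refine hD.att_mono S m v v _ _ hmv le_rfl ?_ ((hCC1 r hr).2 k hk)
      rintro y - - ⟨-, h2⟩
      obtain ⟨-, r', -, k', hk', he, h3, h4⟩ := (hel _ _).mp h2
      have hrr : r = r' := le_antisymm (not_lt.mp (div_aux hk' he.symm)) (not_lt.mp (div_aux hk he))
      subst hrr
      have hkk : k = k' := add_left_cancel he
      subst hkk
      exact ⟨h3, h4⟩
    · refine hD.att_mono S m v v _ _ hmv le_rfl ?_ ((hCC1 0 hB).2 0 hN)
      rintro y - - ⟨-, h2⟩
      obtain ⟨-, r', hr', k', hk', he, h3, h4⟩ := (hel _ _).mp h2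
      exact absurd ⟨r', hr', k', hk', he⟩ hq

theorem cov_fiber (hC : CodAPI M bd) (hA : Nice A) (hD : DefnAPI M bd f Φ A) {S m v N : M}
    (hmv : m ≤ v) {P : M → Prop} {T : M → M} (hT : Rec A T) (hTN : ∀ y, T y < N)
    (h : ∀ τ, τ < N → Att bd f Φ S m v (fun y => P y ∧ T y = τ)) : Cov bd f Φ S m v N P := by
  have hb := hA.base
  let Q : M → Prop := fun z => ∃ y, y < z + 1 ∧ z = pair y (T y)
  have hQ : RecP A Q := by
    refine RecP.bex hb.coll (Rec.add Rec.id (Rec.const 1)) (R := fun (z : M) y => z = pair y (T y)) ?_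
    exact RecP.eq PMap.id.fst.rec (Rec.pair PMap.id.snd.rec (hT.comp PMap.id.snd.rec))
  have hel : ∀ y q, el (pair y q) (mk (pair v N) Q) ↔ pair y q < pair v N ∧ T y = q := by
    intro y q
    rw [hC.mk_spec A hb Q hQ]
    refine and_congr_right fun _ => ?_
    constructor
    · rintro ⟨y', -, h1⟩
      obtain ⟨rfl, h4⟩ := pair_inj h1
      exact h4.symm
    · rintro rfl
      exact ⟨y, lt_add_one_iff'.mpr (le_pair_left _ _), rfl⟩
  refine ⟨mk (pair v N) Q, hC.mk_lt A hb Q hQ _, ?_, ?_⟩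
  · intro y hy _ _
    exact ⟨T y, hTN y, (hel _ _).mpr ⟨pair_lt hy (hTN y), rfl⟩⟩
  · intro τ hτ
    refine hD.att_mono S m v v _ _ hmv le_rfl ?_ (h τ hτ)
    rintro y - - ⟨h1, h2⟩
    exact ⟨h1, ((hel _ _).mp h2).2⟩

theorem mk_congr' {n n' : M} {P P' : M → Prop} (h : ∀ x, (x < n ∧ P x) ↔ (x < n' ∧ P' x)) :
    mk n P = mk n' P' := by
  unfold mk
  congr 1
  funext c
  exact propext (forall_congr' fun x => by rw [h x])

/-- The Claim of the one-step lemma: if no extension of `(n, c)` inside `AA` has more events then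
`AA` is attainable. -/
theorem claim (hC : CodAPI M bd) (hA : Nice A) {card : M → M} (hCa : CardAPI M card)
    (hloc : Local Φ) (hD : DefnAPI M bd f Φ A)
    {S m v' C k s Su u v : M} (hSm : IsMaxOf S m) (hmu : m < u) (huv : u ≤ v) (hv : v ≤ v')
    (hSu : ∀ x, el x Su ↔ el x S ∨ x = u)
    (hs1 : Hom0 f m s)
    (hs2 : ∀ y, y < v' → m ≤ y → (True ∧ el (pair y k) C) → ∀ x, x < m → el x s → ¬ f (x, y))
    (hs3 : ∀ n, n < v' + 1 → ∀ t, t < bd v' → Ext f m s n t (fun y => True ∧ el (pair y k) C) →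
      ∀ g, g < m → ∀ g', g' < m + 1 → Cons2 S g g' →
        ∀ e, e < g + 1 → Ev Φ g e n t → Ev Φ g e g' t)
    {AA : M → Prop} {D : M} (hD1 : ∀ x, el x D → el (pair x k) C)
    (hAA1 : ∀ y, AA y → el (pair y k) C) (hAA2 : ∀ y, AA y → ∀ x, el x D → ¬ f (x, y))
    {n c : M} (hn : n ≤ u) (hext : Ext f m s n c (fun x => el x D))
    (hmax : ∀ n' c', n' ≤ v → Ext f n c n' c' AA →
      ¬ card (mk (m + 1) (fun e => Ev Φ m e n c)) < card (mk (m + 1) (fun e => Ev Φ m e n' c'))) :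
    Att bd f Φ Su u v AA := by
  have hb := hA.base
  obtain ⟨hmn, hag, hin, hhom⟩ := hext
  have hPr : RecP A (fun x => x < n ∧ el x c) :=
    (RecP.lt Rec.id (Rec.const n)).and (rec_el hC Rec.id (Rec.const c))
  have hel : ∀ x, el x (mk u (fun x => x < n ∧ el x c)) ↔ x < n ∧ el x c := by
    intro x
    rw [hC.mk_spec A hb _ hPr]
    constructor
    · exact fun h => h.2
    · exact fun h => ⟨h.1.trans_le hn, h⟩
  refine ⟨mk u (fun x => x < n ∧ el x c), hC.mk_lt A hb _ hPr _, ?_, ?_, ?_⟩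
  · intro x y hxy _ hx hy
    rw [hel] at hx hy
    exact hhom x y hxy hy.1 hx.2 hy.2
  · intro y hyv huy hy x _ hx
    rw [hel] at hx
    rcases lt_or_ge x m with h1 | h1
    · exact hs2 y (hyv.trans_le hv) (hmu.le.trans huy) ⟨trivial, hAA1 y hy⟩ x h1
        ((hag x h1).mpr hx.2)
    · exact hAA2 y hy x (hin x hx.1 h1 hx.2)
  · rintro n' hn' t ht ⟨hun', hag', hin', hhom'⟩ g hg g' hg' hcons e he hev
    have hn'v : n' ≤ v := lt_add_one_iff'.mp hn'
    have hct : ∀ x, x < n → (el x c ↔ el x t) := by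
      intro x hx
      rw [← hag' x (hx.trans_le hn), hel]
      exact ⟨fun h => ⟨hx, h⟩, fun h => h.2⟩
    have hgu : g' = u ∨ g' ≤ m := by
      rcases (hSu g').mp hcons.2.1 with h1 | h1
      · exact Or.inr (hSm.2 g' h1)
      · exact Or.inl h1
    have hgS : el g S := by
      rcases (hSu g).mp hcons.1 with h1 | h1
      · exact h1
      · exact absurd hg (by rw [h1]; exact lt_irrefl _)
    rcases hgu with rfl | hgm
    · -- the new pair
      have hgm : g = m := by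
        refine le_antisymm (hSm.2 g hgS) ?_
        by_contra hlt
        push Not at hlt
        exact hcons.2.2.2 m hmu hlt ((hSu m).mpr (Or.inl hSm.1))
      subst hgm
      have hE : Ext f n c n' t AA := by
        refine ⟨hn.trans hun', hct, ?_, hhom'⟩
        intro x hx hnx hxt
        rcases lt_or_ge x g' with h1 | h1
        · exact absurd hnx (not_le.mpr ((hel x).mp ((hag' x h1).mpr hxt)).1)
        · exact hin' x hx h1 hxt
      have hno := hmax n' t hn'v hE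
      by_contra hnev
      apply hno
      have hEv : ∀ n c : M, RecP A (fun e => Ev Φ g e n c) := fun n c =>
        hD.ev_rec M (fun _ => g) (fun e => e) (fun _ => n) (fun _ => c) (Rec.const g) Rec.id
          (Rec.const n) (Rec.const c)
      have h1 : ∀ e, Ev Φ g e n c → Ev Φ g e g' t := by
        rintro e (⟨h1, m', h2, h3⟩ | ⟨h1, x, h2, h3, h4⟩)
        · refine Or.inl ⟨h1, m', h2.trans_le ?_, hloc e m' c t ?_ h3⟩
          · gcongr
          · intro x hx
            exact hct x (hx.trans_le (lt_add_one_iff'.mp h2))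
        · exact Or.inr ⟨h1, x, h2.trans_le hn, h3, (hct x h2).mp h4⟩
      have h2 : ∀ e, Ev Φ g e g' t → Ev Φ g e n' t := by
        rintro e (⟨h1, m', h2, h3⟩ | ⟨h1, x, h2, h3, h4⟩)
        · refine Or.inl ⟨h1, m', h2.trans_le ?_, h3⟩
          gcongr
        · exact Or.inr ⟨h1, x, h2.trans_le hun', h3, h4⟩
      refine hCa.strict _ _ e ?_ ?_ ?_
      · intro x hx
        rw [hC.mk_spec A hb _ (hEv _ _)] at hx ⊢
        exact ⟨hx.1, h2 x (h1 x hx.2)⟩
      · rw [hC.mk_spec A hb _ (hEv _ _)]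
        exact ⟨he, hev⟩
      · rw [hC.mk_spec A hb _ (hEv _ _)]
        rintro ⟨-, h3⟩
        exact hnev (h1 e h3)
    · -- the old pairs
      have hg'S : el g' S := by
        rcases (hSu g').mp hcons.2.1 with h1 | h1
        · exact h1
        · exact absurd hmu (not_lt.mpr (h1 ▸ hgm))
      refine hs3 n' (hn'.trans_le (by gcongr)) t (ht.trans_le (hC.bd_mono hv)) ?_ g
        (hcons.2.2.1.trans_le hgm) g' (lt_add_one_iff'.mpr hgm) ?_ e he hev
      · refine ⟨hmu.le.trans hun', ?_, ?_, hhom'⟩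
        · intro x hx
          exact (hag x hx).trans (hct x (hx.trans_le hmn))
        · intro x hx hmx hxt
          refine ⟨trivial, ?_⟩
          rcases lt_or_ge x u with h1 | h1
          · obtain ⟨h2, h3⟩ := (hel x).mp ((hag' x h1).mpr hxt)
            exact hD1 x (hin x h2 hmx h3)
          · exact hAA1 x (hin' x hx h1 hxt)
      · exact ⟨hgS, hg'S, hcons.2.2.1, fun z hz1 hz2 hz3 =>
          hcons.2.2.2 z hz1 hz2 ((hSu z).mpr (Or.inl hz3))⟩

end ONE

open ONE in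
theorem st_ONE (hREC : ST_REC.{u}) (hGR : ST_GREEDY.{u}) : ST_ONE.{u} := by
  intro M _ bd hC pw card hPr hCa A hA f l hf hcl Φ hΦ hloc hD S m hSm hgood
  by_contra hcon
  push Not at hcon
  have hb := hA.base
  have hbd : Rec A bd := hC.bd_rec.of_pure A
  -- the codes `S + {u}`
  obtain ⟨Sx, hSx, hSxs⟩ : ∃ Sx : M → M, Rec A Sx ∧
      ∀ u, m < u → ∀ x, el x (Sx u) ↔ el x S ∨ x = u := by
    have hR : RecP A (fun g : M × M => el g.2 S ∨ g.2 = g.1) :=
      (rec_el hC PMap.id.snd.rec (Rec.const S)).or (RecP.eq PMap.id.snd.rec PMap.id.fst.rec)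
    refine ⟨fun u => mk (u + 1) (fun x => el x S ∨ x = u), ?_, ?_⟩
    · exact hC.mk_rec A hb M (fun u x => el x S ∨ x = u) (fun u => u + 1) hR
        (Rec.add Rec.id (Rec.const 1))
    · intro u hu x
      have hR1 : RecP A (fun x => el x S ∨ x = u) :=
        hR.comp (F := fun x => (u, x)) ((Rec.const u).prodMk Rec.id)
      rw [hC.mk_spec A hb _ hR1]
      constructor
      · exact fun h => h.2
      · intro h
        refine ⟨?_, h⟩
        rcases h with h | h
        · exact ((hSm.2 x h).trans_lt hu).trans (lt_add_one' u)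
        · rw [h]; exact lt_add_one' u
  -- the bad endpoints
  obtain ⟨h, hh, hhs⟩ : ∃ h : M → M, Rec A h ∧ ∀ u, m < u → u ≤ h u ∧
      ¬ Cov bd f Φ (Sx u) u (h u) (u + 1) (fun _ => True) := by
    have hR : RecP A (fun g : M × M => g.1 ≤ m ∨ (g.1 ≤ g.2 ∧
        ¬ Cov bd f Φ (Sx g.1) g.1 g.2 (g.1 + 1) (fun _ => True))) := by
      refine (RecP.le PMap.id.fst.rec (Rec.const m)).or
        ((RecP.le PMap.id.fst.rec PMap.id.snd.rec).and (RecP.not ?_))
      exact hD.cov_rec _ (fun g : M × M => Sx g.1) (fun g => g.1) (fun g => g.2)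
        (fun g => g.1 + 1) (fun _ _ => True) (hSx.comp PMap.id.fst.rec) PMap.id.fst.rec
        PMap.id.snd.rec (Rec.add PMap.id.fst.rec (Rec.const 1)) (RecP.const True)
    have htot : ∀ u : M, ∃ v, u ≤ m ∨ (u ≤ v ∧
        ¬ Cov bd f Φ (Sx u) u v (u + 1) (fun _ => True)) := by
      intro u
      by_cases hu : u ≤ m
      · exact ⟨0, Or.inl hu⟩
      · push Not at hu
        obtain ⟨S', hS', hng⟩ := hcon u hu
        have hng2 : ¬ Good bd f Φ (Sx u) u := fun hg =>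
          hng (hD.good_congr (Sx u) S' u (fun x => by rw [hSxs u hu, hS']) hg)
        unfold Good at hng2
        push Not at hng2
        obtain ⟨v, hv, hv2⟩ := hng2
        exact ⟨v, Or.inr ⟨hv, hv2⟩⟩
    refine ⟨fun u => mu (fun v => u ≤ m ∨ (u ≤ v ∧
      ¬ Cov bd f Φ (Sx u) u v (u + 1) (fun _ => True))), Rec.mu hb (R := fun u v => u ≤ m ∨ (u ≤ v ∧
      ¬ Cov bd f Φ (Sx u) u v (u + 1) (fun _ => True))) hR htot, fun u hu => ?_⟩
    have hR1 : RecP A (fun v => u ≤ m ∨ (u ≤ v ∧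
        ¬ Cov bd f Φ (Sx u) u v (u + 1) (fun _ => True))) :=
      hR.comp (F := fun x => (u, x)) ((Rec.const u).prodMk Rec.id)
    rcases (mu_spec hb hR1 (htot u)).1 with h1 | h1
    · exact absurd hu (not_lt.mpr h1)
    · exact h1
  -- constants
  obtain ⟨K, hK⟩ : ∃ K, K = (m + 1) * pw (l + m + 1) := ⟨_, rfl⟩
  obtain ⟨N, hN⟩ : ∃ N, N = bd K := ⟨_, rfl⟩
  have hbdpos : ∀ x : M, 0 < bd x := fun x =>
    lt_of_le_of_lt zero_le (hC.mk_lt A hb (fun _ => True) (RecP.const True) x)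
  have hNpos : 0 < N := hN ▸ hbdpos K
  obtain ⟨U, hU, hUm, hUV, hUbig⟩ : ∃ G : M → M, Rec A G ∧ (∀ v, m < G v) ∧ (∀ v, v ≤ G v) ∧
      ∀ v, (m + 1) * (bd v * N) ≤ G v := by
    refine ⟨fun v => v + (m + 1) * (bd v * N) + (m + 1), ?_, ?_, ?_, ?_⟩
    · exact Rec.add (Rec.add Rec.id (Rec.mul (Rec.const _) (Rec.mul hbd (Rec.const N))))
        (Rec.const _)
    · intro v
      exact (lt_add_one' m).trans_le le_add_self
    · intro v
      exact le_self_add.trans le_self_add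
    · intro v
      exact le_add_self.trans le_self_add
  obtain ⟨V, hV, hV1⟩ : ∃ V : M → M, Rec A V ∧ ∀ i, V (i + 1) = h (U (V i)) := by
    obtain ⟨F, hF, -, hF1⟩ := hREC M A hA ⟨bd, hC⟩ PUnit.{u + 1} (fun _ => 0)
      (fun z => h (U z.2)) (Rec.const 0) (hh.comp (hU.comp PMap.id.snd.rec))
    refine ⟨fun i => F (PUnit.unit, i), hF.comp ((Rec.const _).prodMk Rec.id), fun i => ?_⟩
    exact hF1 _ i
  have hVU : ∀ i, U (V i) ≤ V (i + 1) := fun i => by
    rw [hV1]
    exact (hhs _ (hUm _)).1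
  have hVmono : ∀ i j, i ≤ j → V i ≤ V j := by
    intro i j hij
    obtain ⟨d, rfl⟩ := exists_add_of_le hij
    refine hb.ind (fun d => V i ≤ V (i + d)) ?_ ?_ ?_ d
    · exact RecP.le (Rec.const _) (hV.comp (Rec.add (Rec.const i) Rec.id))
    · rw [add_zero]
    · intro x hx
      rw [← add_assoc]
      exact hx.trans ((hUV _).trans (hVU _))
  -- goodness of `S` at `v'`
  obtain ⟨v', hv'⟩ : ∃ v', v' = V K + m := ⟨_, rfl⟩
  have hVv' : ∀ i, i < K → V (i + 1) ≤ v' := fun i hi => by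
    rw [hv']
    exact (hVmono _ _ (add_one_le_of_lt hi)).trans le_self_add
  obtain ⟨C, -, hC1, hC2⟩ := hgood v' (hv' ▸ le_add_self)
  obtain ⟨κ, hκ, hκ1, hκ2⟩ : ∃ κ : M → M, Rec A κ ∧ (∀ y, κ y ≤ m → el (pair y (κ y)) C) ∧
      ∀ y, y < v' → m ≤ y → κ y ≤ m := by
    have hR : RecP A (fun g : M × M => g.2 = m + 1 ∨ el (pair g.1 g.2) C) :=
      (RecP.eq PMap.id.snd.rec (Rec.const _)).or
        (rec_el hC (Rec.pair PMap.id.fst.rec PMap.id.snd.rec) (Rec.const C))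
    have htot : ∀ y : M, ∃ k, k = m + 1 ∨ el (pair y k) C := fun y => ⟨m + 1, Or.inl rfl⟩
    have hR1 : ∀ y, RecP A (fun k => k = m + 1 ∨ el (pair y k) C) := fun y =>
      hR.comp (F := fun x => (y, x)) ((Rec.const y).prodMk Rec.id)
    refine ⟨fun y => mu (fun k => k = m + 1 ∨ el (pair y k) C),
      Rec.mu hb (R := fun y k => k = m + 1 ∨ el (pair y k) C) hR htot, ?_, ?_⟩
    · intro y hy
      rcases (mu_spec hb (hR1 y) (htot y)).1 with h1 | h1
      · exact absurd (h1.symm.trans_le hy) (not_le.mpr (lt_add_one' m))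
      · exact h1
    · intro y hy hmy
      obtain ⟨k, hk, hk2⟩ := hC1 y hy hmy trivial
      by_contra hc
      push Not at hc
      exact (mu_spec hb (hR1 y) (htot y)).2 k ((lt_add_one_iff'.mp hk).trans_lt hc) (Or.inr hk2)
  -- the patterns
  obtain ⟨pat, hpat, hpat1, hpat2⟩ : ∃ pat : M × M → M, Rec A pat ∧
      (∀ i y x, el x (pat (i, y)) ↔ x < V i ∧ κ x = κ y ∧ ¬ f (x, y)) ∧
      ∀ i y, pat (i, y) < bd (V i) := by
    have hR : RecP A (fun g : (M × M) × M => κ g.2 = κ g.1.2 ∧ ¬ f (g.2, g.1.2)) :=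
      (RecP.eq (hκ.comp PMap.id.snd.rec) (hκ.comp PMap.id.fst.snd.rec)).and
        (hf.comp (Rec.prodMk PMap.id.snd.rec PMap.id.fst.snd.rec)).not
    have hR1 : ∀ i y, RecP A (fun x => κ x = κ y ∧ ¬ f (x, y)) := fun i y =>
      hR.comp (F := fun x => ((i, y), x)) ((Rec.const (i, y)).prodMk Rec.id)
    refine ⟨fun z => mk (V z.1) (fun x => κ x = κ z.2 ∧ ¬ f (x, z.2)), ?_, ?_, ?_⟩
    · exact hC.mk_rec A hb (M × M) (fun z x => κ x = κ z.2 ∧ ¬ f (x, z.2)) (fun z => V z.1) hR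
        (hV.comp PMap.id.fst.rec)
    · intro i y x
      exact hC.mk_spec A hb _ (hR1 i y) _ _
    · intro i y
      exact hC.mk_lt A hb _ (hR1 i y) _
  -- the bad pieces
  let Bad : M → M → M → Prop := fun i k D => (∀ x, x < D → el x D → κ x = k) ∧
    ¬ Cov bd f Φ (Sx (U (V i))) (U (V i)) (V (i + 1)) N (fun y => κ y = k ∧ pat (i, y) = D)
  have hBad : RecP A (fun z : (M × M) × M => Bad z.1.1 z.1.2 z.2) := by
    refine RecP.and ?_ (RecP.not ?_)
    · refine RecP.ball hb.coll PMap.id.snd.rec (R := fun (z : (M × M) × M) x =>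
        el x z.2 → κ x = z.1.2) ?_
      exact (rec_el hC PMap.id.snd.rec PMap.id.fst.snd.rec).imp
        (RecP.eq (hκ.comp PMap.id.snd.rec) PMap.id.fst.fst.snd.rec)
    · refine hD.cov_rec _ (fun z : (M × M) × M => Sx (U (V z.1.1))) (fun z => U (V z.1.1))
        (fun z => V (z.1.1 + 1)) (fun _ => N) (fun z y => κ y = z.1.2 ∧ pat (z.1.1, y) = z.2)
        (hSx.comp (hU.comp (hV.comp PMap.id.fst.fst.rec))) (hU.comp (hV.comp PMap.id.fst.fst.rec))
        (hV.comp (Rec.add PMap.id.fst.fst.rec (Rec.const 1))) (Rec.const N) ?_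
      exact (RecP.eq (hκ.comp PMap.id.snd.rec) PMap.id.fst.fst.snd.rec).and
        (RecP.eq (hpat.comp (Rec.prodMk PMap.id.fst.fst.fst.rec PMap.id.snd.rec))
          PMap.id.fst.snd.rec)
  have claimA : ∀ i, i < K → ∃ k, k < m + 1 ∧ ∃ D, D < bd (V i) ∧ Bad i k D := by
    intro i hi
    by_contra hc
    push Not at hc
    have hUle : U (V i) ≤ V (i + 1) := hVU i
    -- the empty pattern
    have hD0 : ∀ x, ¬ el x (mk (V i) (fun _ => False)) := by
      intro x hx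
      rw [hC.mk_spec A hb _ (RecP.const False)] at hx
      exact hx.2
    have hD0lt : mk (V i) (fun _ => False) < bd (V i) := hC.mk_lt A hb _ (RecP.const False) _
    have hcov0 : ∀ k D, k < m + 1 → D < bd (V i) → (∀ x, x < D → el x D → κ x = k) →
        Cov bd f Φ (Sx (U (V i))) (U (V i)) (V (i + 1)) N
          (fun y => κ y = k ∧ pat (i, y) = D) := by
      intro k D hk hDlt hval
      by_contra hnc
      exact hc k hk D hDlt ⟨hval, hnc⟩
    have hcov1 : ∀ k, k < m + 1 → ∀ D, D < bd (V i) →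
        Cov bd f Φ (Sx (U (V i))) (U (V i)) (V (i + 1)) N
          (fun y => (∀ x, x < D → el x D → κ x = k) ∧ κ y = k ∧ pat (i, y) = D) := by
      intro k hk D hDlt
      by_cases hval : ∀ x, x < D → el x D → κ x = k
      · refine hD.cov_mono _ _ _ _ _ _ _ _ hUle le_rfl hNpos le_rfl ?_ (hcov0 k D hk hDlt hval)
        intro y _ _ hy
        exact hy.2
      · refine hD.cov_mono _ _ _ _ _ _ _ _ hUle le_rfl hNpos le_rfl ?_
          (hcov0 0 (mk (V i) (fun _ => False)) (lt_of_le_of_lt zero_le (lt_add_one' m)) hD0lt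
            (fun x _ hx => absurd hx (hD0 x)))
        intro y _ _ hy
        exact absurd hy.1 hval
    have hrecval : RecP A (fun g : M × M => ∀ x, x < g.2 → el x g.2 → κ x = g.1) := by
      refine RecP.ball hb.coll PMap.id.snd.rec (R := fun (z : M × M) x => el x z.2 → κ x = z.1) ?_
      exact (rec_el hC PMap.id.snd.rec PMap.id.fst.snd.rec).imp
        (RecP.eq (hκ.comp PMap.id.snd.rec) PMap.id.fst.fst.rec)
    have hrec3 : RecP A (fun g : (M × M) × M => (∀ x, x < g.1.2 → el x g.1.2 → κ x = g.1.1) ∧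
        κ g.2 = g.1.1 ∧ pat (i, g.2) = g.1.2) := by
      refine RecP.and (hrecval.comp PMap.id.fst.rec) (RecP.and ?_ ?_)
      · exact RecP.eq (hκ.comp PMap.id.snd.rec) PMap.id.fst.fst.rec
      · exact RecP.eq (hpat.comp (Rec.prodMk (Rec.const i) PMap.id.snd.rec)) PMap.id.fst.snd.rec
    have hcov2 : ∀ k, k < m + 1 →
        Cov bd f Φ (Sx (U (V i))) (U (V i)) (V (i + 1)) (bd (V i) * N)
          (fun y => ∃ D, D < bd (V i) ∧ (∀ x, x < D → el x D → κ x = k) ∧ κ y = k ∧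
            pat (i, y) = D) := by
      intro k hk
      refine cov_union hC hA hD hUle hNpos (hbdpos _)
        (P := fun D y => (∀ x, x < D → el x D → κ x = k) ∧ κ y = k ∧ pat (i, y) = D) ?_
        (hcov1 k hk)
      exact hrec3.comp (F := fun g : M × M => ((k, g.1), g.2))
        (((Rec.const k).prodMk PMap.id.fst.rec).prodMk PMap.id.snd.rec)
    have hcov3 := cov_union hC hA hD hUle (mul_pos (hbdpos (V i)) hNpos)
      (lt_of_le_of_lt zero_le (lt_add_one' m))
      (P := fun k y => ∃ D, D < bd (V i) ∧ (∀ x, x < D → el x D → κ x = k) ∧ κ y = k ∧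
            pat (i, y) = D) (by
        refine RecP.bex hb.coll (Rec.const _) (R := fun (z : M × M) D =>
          (∀ x, x < D → el x D → κ x = z.1) ∧ κ z.2 = z.1 ∧ pat (i, z.2) = D) ?_
        exact hrec3.comp (F := fun g : (M × M) × M => ((g.1.1, g.2), g.1.2))
          ((PMap.id.fst.fst.rec.prodMk PMap.id.snd.rec).prodMk PMap.id.fst.snd.rec)) hcov2
    refine (hhs (U (V i)) (hUm _)).2 ?_
    rw [← hV1]
    refine hD.cov_mono _ _ _ _ _ _ _ _ hUle le_rfl
      (mul_pos (lt_of_le_of_lt zero_le (lt_add_one' m)) (mul_pos (hbdpos (V i)) hNpos))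
      ((hUbig (V i)).trans (lt_add_one' _).le) ?_ hcov3
    intro y hy hUy _
    have hyk : κ y ≤ m := hκ2 y (hy.trans_le (hVv' i hi)) ((hUm _).le.trans hUy)
    exact ⟨κ y, lt_add_one_iff'.mpr hyk, pat (i, y), hpat2 i y,
      fun x _ hx => ((hpat1 i y x).mp hx).2.1, rfl, rfl⟩
  obtain ⟨kk, hkk, hkk1⟩ : ∃ kk : M → M, Rec A kk ∧ ∀ i, i < K → kk i ≤ m ∧ ∃ D, Bad i (kk i) D := by
    have hR : RecP A (fun g : M × M => K ≤ g.1 ∨ ∃ D, D < bd (V g.1) ∧ Bad g.1 g.2 D) := by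
      refine (RecP.le (Rec.const K) PMap.id.fst.rec).or ?_
      exact RecP.bex hb.coll (hbd.comp (hV.comp PMap.id.fst.rec))
        (R := fun (z : M × M) D => Bad z.1 z.2 D) hBad
    have htot : ∀ i : M, ∃ k, K ≤ i ∨ ∃ D, D < bd (V i) ∧ Bad i k D := by
      intro i
      by_cases hi : i < K
      · obtain ⟨k, -, D, hD1, hD2⟩ := claimA i hi
        exact ⟨k, Or.inr ⟨D, hD1, hD2⟩⟩
      · exact ⟨0, Or.inl (not_lt.mp hi)⟩
    have hR1 : ∀ i, RecP A (fun k => K ≤ i ∨ ∃ D, D < bd (V i) ∧ Bad i k D) := fun i =>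
      hR.comp (F := fun x => (i, x)) ((Rec.const i).prodMk Rec.id)
    refine ⟨fun i => mu (fun k => K ≤ i ∨ ∃ D, D < bd (V i) ∧ Bad i k D),
      Rec.mu hb (R := fun i k => K ≤ i ∨ ∃ D, D < bd (V i) ∧ Bad i k D) hR htot, fun i hi => ?_⟩
    constructor
    · obtain ⟨k, hk, D, hD1, hD2⟩ := claimA i hi
      by_contra hc
      push Not at hc
      exact (mu_spec hb (hR1 i) (htot i)).2 k ((lt_add_one_iff'.mp hk).trans_lt hc)
        (Or.inr ⟨D, hD1, hD2⟩)
    · rcases (mu_spec hb (hR1 i) (htot i)).1 with h1 | ⟨D, -, h1⟩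
      · exact absurd hi (not_lt.mpr h1)
      · exact ⟨D, h1⟩
  obtain ⟨DD, hDD, hDD1⟩ : ∃ DD : M → M, Rec A DD ∧ ∀ i, i < K → Bad i (kk i) (DD i) := by
    have hR : RecP A (fun g : M × M => K ≤ g.1 ∨ Bad g.1 (kk g.1) g.2) := by
      refine (RecP.le (Rec.const K) PMap.id.fst.rec).or ?_
      exact hBad.comp (F := fun g : M × M => ((g.1, kk g.1), g.2))
        ((PMap.id.fst.rec.prodMk (hkk.comp PMap.id.fst.rec)).prodMk PMap.id.snd.rec)
    have htot : ∀ i : M, ∃ D, K ≤ i ∨ Bad i (kk i) D := by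
      intro i
      by_cases hi : i < K
      · obtain ⟨D, hD2⟩ := (hkk1 i hi).2
        exact ⟨D, Or.inr hD2⟩
      · exact ⟨0, Or.inl (not_lt.mp hi)⟩
    have hR1 : ∀ i, RecP A (fun D => K ≤ i ∨ Bad i (kk i) D) := fun i =>
      hR.comp (F := fun x => (i, x)) ((Rec.const i).prodMk Rec.id)
    refine ⟨fun i => mu (fun D => K ≤ i ∨ Bad i (kk i) D),
      Rec.mu hb (R := fun i D => K ≤ i ∨ Bad i (kk i) D) hR htot, fun i hi => ?_⟩
    rcases (mu_spec hb (hR1 i) (htot i)).1 with h1 | h1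
    · exact absurd hi (not_lt.mpr h1)
    · exact h1
  -- the types
  obtain ⟨T, hT, hT1, hT2⟩ : ∃ T : M × M → M, Rec A T ∧
      (∀ i p j, el j (T (i, p)) ↔ j < K ∧ i < j ∧ kk j = kk i ∧ el p (DD j)) ∧
      ∀ i p, T (i, p) < N := by
    have hR : RecP A (fun g : (M × M) × M => g.1.1 < g.2 ∧ kk g.2 = kk g.1.1 ∧
        el g.1.2 (DD g.2)) :=
      (RecP.lt PMap.id.fst.fst.rec PMap.id.snd.rec).and
        ((RecP.eq (hkk.comp PMap.id.snd.rec) (hkk.comp PMap.id.fst.fst.rec)).and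
          (rec_el hC PMap.id.fst.snd.rec (hDD.comp PMap.id.snd.rec)))
    have hR1 : ∀ i p, RecP A (fun j => i < j ∧ kk j = kk i ∧ el p (DD j)) := fun i p =>
      hR.comp (F := fun x => ((i, p), x)) ((Rec.const (i, p)).prodMk Rec.id)
    refine ⟨fun z => mk K (fun j => z.1 < j ∧ kk j = kk z.1 ∧ el z.2 (DD j)), ?_, ?_, ?_⟩
    · exact hC.mk_rec A hb (M × M) (fun z j => z.1 < j ∧ kk j = kk z.1 ∧ el z.2 (DD j))
        (fun _ => K) hR (Rec.const K)
    · intro i p j
      exact hC.mk_spec A hb _ (hR1 i p) _ _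
    · intro i p
      rw [hN]
      exact hC.mk_lt A hb _ (hR1 i p) _
  have claimB : ∀ i, i < K → ∃ τ, ¬ Att bd f Φ (Sx (U (V i))) (U (V i)) (V (i + 1))
      (fun y => (κ y = kk i ∧ pat (i, y) = DD i) ∧ T (i, y) = τ) := by
    intro i hi
    by_contra hc
    push Not at hc
    exact (hDD1 i hi).2 (cov_fiber hC hA hD (hVU i) (T := fun y => T (i, y))
      (hT.comp ((Rec.const i).prodMk Rec.id)) (fun y => hT2 i y) (fun τ _ => hc τ))
  obtain ⟨ty, hty, hty1⟩ : ∃ ty : M → M, Rec A ty ∧ ∀ i, i < K →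
      ¬ Att bd f Φ (Sx (U (V i))) (U (V i)) (V (i + 1))
      (fun y => (κ y = kk i ∧ pat (i, y) = DD i) ∧ T (i, y) = ty i) := by
    have hR : RecP A (fun g : M × M => K ≤ g.1 ∨
        ¬ Att bd f Φ (Sx (U (V g.1))) (U (V g.1)) (V (g.1 + 1))
      (fun y => (κ y = kk g.1 ∧ pat (g.1, y) = DD g.1) ∧ T (g.1, y) = g.2)) := by
      refine (RecP.le (Rec.const K) PMap.id.fst.rec).or (RecP.not ?_)
      refine hD.att_rec _ (fun z : M × M => Sx (U (V z.1))) (fun z => U (V z.1))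
        (fun z => V (z.1 + 1)) (fun z y => (κ y = kk z.1 ∧ pat (z.1, y) = DD z.1) ∧
          T (z.1, y) = z.2)
        (hSx.comp (hU.comp (hV.comp PMap.id.fst.rec))) (hU.comp (hV.comp PMap.id.fst.rec))
        (hV.comp (Rec.add PMap.id.fst.rec (Rec.const 1))) ?_
      refine RecP.and (RecP.and ?_ ?_) ?_
      · exact RecP.eq (hκ.comp PMap.id.snd.rec) (hkk.comp PMap.id.fst.fst.rec)
      · exact RecP.eq (hpat.comp (Rec.prodMk PMap.id.fst.fst.rec PMap.id.snd.rec))
          (hDD.comp PMap.id.fst.fst.rec)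
      · exact RecP.eq (hT.comp (Rec.prodMk PMap.id.fst.fst.rec PMap.id.snd.rec))
          PMap.id.fst.snd.rec
    have htot : ∀ i : M, ∃ τ, K ≤ i ∨ ¬ Att bd f Φ (Sx (U (V i))) (U (V i)) (V (i + 1))
      (fun y => (κ y = kk i ∧ pat (i, y) = DD i) ∧ T (i, y) = τ) := by
      intro i
      by_cases hi : i < K
      · obtain ⟨τ, hτ⟩ := claimB i hi
        exact ⟨τ, Or.inr hτ⟩
      · exact ⟨0, Or.inl (not_lt.mp hi)⟩
    have hR1 : ∀ i, RecP A (fun τ => K ≤ i ∨
        ¬ Att bd f Φ (Sx (U (V i))) (U (V i)) (V (i + 1))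
      (fun y => (κ y = kk i ∧ pat (i, y) = DD i) ∧ T (i, y) = τ)) := fun i =>
      hR.comp (F := fun x => (i, x)) ((Rec.const i).prodMk Rec.id)
    refine ⟨fun i => mu (fun τ => K ≤ i ∨ ¬ Att bd f Φ (Sx (U (V i))) (U (V i)) (V (i + 1))
      (fun y => (κ y = kk i ∧ pat (i, y) = DD i) ∧ T (i, y) = τ)),
      Rec.mu hb (R := fun i τ => K ≤ i ∨ ¬ Att bd f Φ (Sx (U (V i))) (U (V i)) (V (i + 1))
      (fun y => (κ y = kk i ∧ pat (i, y) = DD i) ∧ T (i, y) = τ)) hR htot, fun i hi => ?_⟩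
    rcases (mu_spec hb (hR1 i) (htot i)).1 with h1 | h1
    · exact absurd hi (not_lt.mpr h1)
    · exact h1
  -- pigeonhole
  obtain ⟨k, hkm, hcard⟩ := hCa.pigeon A hA kk hkk m (pw (l + m + 1)) K hK.ge
    (fun i hi => (hkk1 i hi).1)
  have hI : ∀ i, el i (mk K (fun i => kk i = k)) ↔ i < K ∧ kk i = k := fun i =>
    hC.mk_spec A hb _ (RecP.eq hkk (Rec.const k)) _ _
  obtain ⟨s, -, hs1, hs2, hs3⟩ := hC2 k (lt_add_one_iff'.mpr hkm)
  -- the predicate `AA`
  let AA : M × M → Prop := fun z => (U (V z.1) ≤ z.2 ∧ z.2 < V (z.1 + 1)) ∧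
    (κ z.2 = kk z.1 ∧ pat (z.1, z.2) = DD z.1) ∧ T (z.1, z.2) = ty z.1
  have hAA : RecP A AA := by
    refine RecP.and (RecP.and ?_ ?_) (RecP.and (RecP.and ?_ ?_) ?_)
    · exact RecP.le (hU.comp (hV.comp PMap.id.fst.rec)) PMap.id.snd.rec
    · exact RecP.lt PMap.id.snd.rec (hV.comp (Rec.add PMap.id.fst.rec (Rec.const 1)))
    · exact RecP.eq (hκ.comp PMap.id.snd.rec) (hkk.comp PMap.id.fst.rec)
    · exact RecP.eq (hpat.comp (Rec.prodMk PMap.id.fst.rec PMap.id.snd.rec))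
        (hDD.comp PMap.id.fst.rec)
    · exact RecP.eq (hT.comp (Rec.prodMk PMap.id.fst.rec PMap.id.snd.rec))
        (hty.comp PMap.id.fst.rec)
  have hEv : ∀ n c : M, RecP A (fun e => Ev Φ m e n c) := fun n c =>
    hD.ev_rec M (fun _ => m) (fun e => e) (fun _ => n) (fun _ => c) (Rec.const m) Rec.id
      (Rec.const n) (Rec.const c)
  have hcnt : Rec A (fun z : M × M => card (mk (m + 1) (fun e => Ev Φ m e z.1 z.2))) := by
    refine (hPr.card_rec.of_pure A).comp (hC.mk_rec A hb (M × M)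
      (fun z e => Ev Φ m e z.1 z.2) (fun _ => m + 1) ?_ (Rec.const _))
    exact hD.ev_rec _ (fun _ => m) (fun z : (M × M) × M => z.2) (fun z => z.1.1)
      (fun z => z.1.2) (Rec.const m) PMap.id.snd.rec PMap.id.fst.fst.rec PMap.id.fst.snd.rec
  have hDk : ∀ i, el i (mk K (fun i => kk i = k)) → ∀ x, el x (DD i) → el (pair x k) C := by
    intro i hi x hx
    obtain ⟨hiK, hik⟩ := (hI i).mp hi
    have h1 : κ x = k := ((hDD1 i hiK).1 x (hC.el_lt _ _ hx) hx).trans hik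
    rw [← h1]
    exact hκ1 x (h1.trans_le hkm)
  refine hGR M bd hC pw card hPr hCa A hA f l hf hcl m
    (fun z : M × M => card (mk (m + 1) (fun e => Ev Φ m e z.1 z.2))) hcnt ?_
    (fun i => U (V i)) (fun i => V (i + 1)) DD ty AA (hU.comp hV)
    (hV.comp (Rec.add Rec.id (Rec.const 1))) hDD hty hAA (mk K (fun i => kk i = k)) m s hcard hs1
    ?_ ?_ ?_ ?_ ?_ ?_
  · intro z
    refine hCa.le _ _ fun x hx => ?_
    rw [hC.mk_spec A hb _ (hEv _ _)] at hx
    exact hx.1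
  · intro i _
    exact ⟨(hUm _).le, hVU i⟩
  · intro i j _ _ hij
    exact (hVmono _ _ (add_one_le_of_lt hij)).trans (hUV _)
  · intro i p _ hp
    exact hp.1
  · rintro i j hi hj hij x y hx hy
    obtain ⟨hiK, hik⟩ := (hI i).mp hi
    obtain ⟨hjK, hjk⟩ := (hI j).mp hj
    rw [← hy.2.1.2, hpat1]
    have h1 : x < V j := hx.1.2.trans_le (hVmono _ _ (add_one_le_of_lt hij))
    have h2 : κ x = κ y := by rw [hx.2.1.1, hy.2.1.1, hik, hjk]
    constructor
    · rintro h3 ⟨-, -, h4⟩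
      exact h4 h3
    · intro h3
      by_contra h4
      exact h3 ⟨h1, h2, h4⟩
  · rintro i j hi hj hij p hp
    obtain ⟨hiK, hik⟩ := (hI i).mp hi
    obtain ⟨hjK, hjk⟩ := (hI j).mp hj
    rw [← hp.2.2, hT1]
    constructor
    · exact fun h1 => h1.2.2.2
    · exact fun h1 => ⟨hjK, hij, hjk.trans hik.symm, h1⟩
  · intro i hi n c hn hext
    obtain ⟨hiK, hik⟩ := (hI i).mp hi
    by_contra hc
    push Not at hc
    apply hty1 i hiK
    have hAtt : Att bd f Φ (Sx (U (V i))) (U (V i)) (V (i + 1)) (fun y => AA (i, y)) := by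
      refine claim hC hA hCa hloc hD hSm (hUm _) (hVU i) (hVv' i hiK) (hSxs _ (hUm _)) hs1
        hs2 hs3 (hDk i hi) ?_ ?_ hn hext ?_
      · intro y hy
        have h1 : κ y = k := hy.2.1.1.trans hik
        rw [← h1]
        exact hκ1 y (h1.trans_le hkm)
      · intro y hy x hx
        rw [← hy.2.1.2, hpat1] at hx
        exact hx.2.2
      · intro n' c' hn' hext'
        exact not_lt.mpr (hc n' c' hn' hext')
    refine hD.att_mono _ _ _ _ _ _ (hVU i) le_rfl ?_ hAtt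
    intro y hy1 hy2 hy
    exact ⟨⟨hy2, hy1⟩, hy⟩

end Pool.Agent.Helper70.BRT
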